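import Pool.Agent.Helper33.PS.Heights
import Pool.Agent.Helper45.RatRed
import Pool.Agent.Helper51.RatTree

/-!
# Plan S: heights and the normalising coordinate (M0, M1, M1b)
-/

set_option autoImplicit false

open Finset Polynomial

namespace Pool.Agent.Helper35.PS

open Pool.Agent.Helper33 Pool.Agent.Helper33.PS Pool.Agent.Helper33.UB Pool.Agent.Helper45.FR
  Pool.Agent.Helper51.RatTree Pool.Agent.Helper93.RatODE

/-! ## M1b -/

lemma mobius_sub {K : Type*} [Field K] {a b c e : K} {x x' : K} (hx : c * x + e ≠ 0)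
    (hx' : c * x' + e ≠ 0) :
    (a * x + b) / (c * x + e) - (a * x' + b) / (c * x' + e) =
      (a * e - b * c) * (x - x') / ((c * x + e) * (c * x' + e)) := by
  rw [div_sub_div _ _ hx hx']
  congr 1
  ring

/-- M1b: Moebius invariance of the cross ratio (x = old points, z = new points, all finite) -/
theorem cr_mobius {K : Type*} [Field K] {a b c e : K} (h : a * e - b * c ≠ 0) (x z : Fin 4 → K)
    (hx : ∀ i, c * x i + e ≠ 0) (hz : ∀ i, z i = (a * x i + b) / (c * x i + e)) :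
    Helper33.PS.cr (z 0) (z 1) (z 2) (z 3) = Helper33.PS.cr (x 0) (x 1) (x 2) (x 3) := by
  have hs : ∀ i j, z i - z j = (a * e - b * c) * (x i - x j) / ((c * x i + e) * (c * x j + e)) := by
    intro i j
    rw [hz i, hz j, mobius_sub (hx i) (hx j)]
  have h0 := hx 0
  have h1 := hx 1
  have h2 := hx 2
  have h3 := hx 3
  unfold Helper33.PS.cr
  rw [hs 3 0, hs 2 1, hs 3 1, hs 2 0]
  have e1 : (a * e - b * c) * (x 3 - x 0) / ((c * x 3 + e) * (c * x 0 + e)) *
      ((a * e - b * c) * (x 2 - x 1) / ((c * x 2 + e) * (c * x 1 + e))) =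
      ((a * e - b * c) ^ 2 / ((c * x 0 + e) * (c * x 1 + e) * (c * x 2 + e) * (c * x 3 + e))) *
      ((x 3 - x 0) * (x 2 - x 1)) := by
    field_simp
  have e2 : (a * e - b * c) * (x 3 - x 1) / ((c * x 3 + e) * (c * x 1 + e)) *
      ((a * e - b * c) * (x 2 - x 0) / ((c * x 2 + e) * (c * x 0 + e))) =
      ((a * e - b * c) ^ 2 / ((c * x 0 + e) * (c * x 1 + e) * (c * x 2 + e) * (c * x 3 + e))) *
      ((x 3 - x 1) * (x 2 - x 0)) := by
    field_simp
  rw [e1, e2, mul_div_mul_left]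
  exact div_ne_zero (pow_ne_zero 2 h)
    (mul_ne_zero (mul_ne_zero (mul_ne_zero h0 h1) h2) h3)

/-! ## M0 -/

section m0

variable {k K V : Type*} [Field k] [Field K] [Algebra k K]

lemma neg_sub_const (v : DV K) (hconst : ∀ c : k, c ≠ 0 → v.o (algebraMap k K c) = 0) (x : K) (c : k) :
    neg v (x - algebraMap k K c) = neg v x := by
  by_cases hc : c = 0
  · rw [hc, map_zero, sub_zero]
  have hc1 := hconst c hc
  have hc2 : algebraMap k K c ≠ 0 := by rw [Ne, map_eq_zero]; exact hc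
  have hg : v.ge 0 (algebraMap k K c) := by
    right
    rw [hc1]
    norm_num
  by_cases hx : v.ge 0 x
  · rw [neg_eq_zero_of_ge hx, neg_eq_zero_of_ge (DV.ge_sub hx hg)]
  · have hx0 : x ≠ 0 := fun e => hx (Or.inl e)
    have hxo : v.o x < 0 := by
      by_contra h
      push Not at h
      exact hx (Or.inr (by exact_mod_cast h))
    have h1 := DV.ord_add_of_ge hx0 (DV.ge_neg hg) (by exact_mod_cast hxo)
    rw [← sub_eq_add_neg] at h1
    rw [neg_of_ne _ h1.1, neg_of_ne _ hx0, h1.2]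

lemma ht_sub_const (P : PSys k K V)
    (hconst : ∀ v, ∀ c : k, c ≠ 0 → (P.pl v).o (algebraMap k K c) = 0) (x : K) (c : k) :
    ht P (x - algebraMap k K c) = ht P x := by
  unfold ht
  exact finsum_congr fun v => neg_sub_const _ (hconst v) x c

lemma ht_inv (P : PSys k K V) {y : K} (hy : y ≠ 0) : ht P y⁻¹ = ht P y := by
  classical
  set T := (P.ord_finite y hy).toFinset with hT
  have hT0 : ∀ v, v ∉ T → (P.pl v).o y = 0 := by
    intro v hv
    by_contra h
    exact hv (by rw [hT, Set.Finite.mem_toFinset]; exact h)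
  rw [ht_eq_sum P y T (by
    intro v hv
    rw [neg_of_ne _ hy, hT0 v hv]; simp), ht_eq_sum P y⁻¹ T (by
    intro v hv
    rw [neg_of_ne _ (inv_ne_zero hy), DV.o_inv _ _ hy, hT0 v hv]; simp)]
  have h1 := P.sum_eq_zero T y hy hT0
  rw [← sub_eq_zero, ← sum_sub_distrib, ← h1]
  apply sum_congr rfl
  intro v _
  rw [neg_of_ne _ hy, neg_of_ne _ (inv_ne_zero hy), DV.o_inv _ _ hy, neg_neg]
  rcases le_total 0 ((P.pl v).o y) with h | h
  · rw [max_eq_right h, max_eq_left (by omega)]; omega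
  · rw [max_eq_left h, max_eq_right (by omega)]; omega

/-- M0 heights -/
theorem ht_mobius_const (P : PSys k K V)
    (hconst : ∀ v, ∀ c : k, c ≠ 0 → (P.pl v).o (algebraMap k K c) = 0) (x : K) (c : k)
    (hx : x ≠ algebraMap k K c) : ht P (1 / (x - algebraMap k K c)) = ht P x := by
  rw [one_div, ht_inv P (sub_ne_zero.mpr hx), ht_sub_const P hconst]

end m0

/-! ## conjugation by a Moebius transformation -/

section conj

variable {K : Type*} [Field K]

/-- the numerator and the denominator of the conjugated map -/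
noncomputable def cjP (F G : K[X]) (d : ℕ) (a b c e : K) : K[X] :=
  C a * hev F d (C e * X - C b) (C a - C c * X) + C b * hev G d (C e * X - C b) (C a - C c * X)

/-- the denominator of the conjugated map -/
noncomputable def cjQ (F G : K[X]) (d : ℕ) (a b c e : K) : K[X] :=
  C c * hev F d (C e * X - C b) (C a - C c * X) + C e * hev G d (C e * X - C b) (C a - C c * X)

variable {F G : K[X]} {d : ℕ} {a b c e : K}

lemma lin1 : (C e * X - C b : K[X]).natDegree ≤ 1 ∧ (C e * X - C b : K[X]).coeff 1 = e := by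
  constructor
  · refine (natDegree_sub_le _ _).trans (max_le ?_ ?_)
    · exact (natDegree_C_mul_le _ _).trans natDegree_X_le
    · rw [natDegree_C]; exact Nat.zero_le _
  · rw [coeff_sub, coeff_C_mul, coeff_X_one, coeff_C, if_neg one_ne_zero, mul_one, sub_zero]

lemma lin2 : (C a - C c * X : K[X]).natDegree ≤ 1 ∧ (C a - C c * X : K[X]).coeff 1 = -c := by
  constructor
  · refine (natDegree_sub_le _ _).trans (max_le ?_ ?_)
    · rw [natDegree_C]; exact Nat.zero_le _
    · exact (natDegree_C_mul_le _ _).trans natDegree_X_le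
  · rw [coeff_sub, coeff_C_mul, coeff_X_one, coeff_C, if_neg one_ne_zero, mul_one, zero_sub]

lemma lin_cop (h : a * e - b * c ≠ 0) : IsCoprime (C e * X - C b : K[X]) (C a - C c * X) := by
  refine ⟨C ((a * e - b * c)⁻¹ * c), C ((a * e - b * c)⁻¹ * e), ?_⟩
  have h1 : C ((a * e - b * c)⁻¹ * c) * (C e * X - C b) + C ((a * e - b * c)⁻¹ * e) * (C a - C c * X) =
      C ((a * e - b * c)⁻¹ * (a * e - b * c)) := by
    simp only [C_mul, C_sub]
    ring
  rw [h1, inv_mul_cancel₀ h, C_1]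

lemma isCoprime_comb (h : a * e - b * c ≠ 0) {U W : K[X]} (hUW : IsCoprime U W) :
    IsCoprime (C a * U + C b * W) (C c * U + C e * W) := by
  obtain ⟨s, t, hst⟩ := hUW
  refine ⟨C (a * e - b * c)⁻¹ * (s * C e - t * C c), C (a * e - b * c)⁻¹ * (t * C a - s * C b), ?_⟩
  have h1 : C (a * e - b * c)⁻¹ * (s * C e - t * C c) * (C a * U + C b * W) +
      C (a * e - b * c)⁻¹ * (t * C a - s * C b) * (C c * U + C e * W) =
      C ((a * e - b * c)⁻¹ * (a * e - b * c)) * (s * U + t * W) := by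
    simp only [C_mul, C_sub]
    ring
  rw [h1, inv_mul_cancel₀ h, hst, C_1, one_mul]

lemma IsRat.conj (h : a * e - b * c ≠ 0) (hFG : IsRat F G d) :
    IsRat (cjP F G d a b c e) (cjQ F G d a b c e) d := by
  have hU := lin1 (b := b) (e := e)
  have hW := lin2 (a := a) (c := c)
  have h1 := hev_natDegree F d hU.1 hW.1
  have h2 := hev_natDegree G d hU.1 hW.1
  have hc := hev_isCoprime hFG.cop hFG.dA hFG.dB hFG.top (lin_cop h)
  have ht := hev_coeff_ne hFG.cop hFG.dA hFG.dB hFG.top hU.1 hW.1 (by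
    rw [hU.2, hW.2]
    by_contra hcon
    push Not at hcon
    apply h
    rw [hcon.1, neg_eq_zero.mp hcon.2]
    ring)
  rw [mul_one] at h1 h2 ht
  refine ⟨isCoprime_comb h hc, ?_, ?_, ?_⟩
  · exact (natDegree_add_le _ _).trans (max_le ((natDegree_C_mul_le _ _).trans h1)
      ((natDegree_C_mul_le _ _).trans h2))
  · exact (natDegree_add_le _ _).trans (max_le ((natDegree_C_mul_le _ _).trans h1)
      ((natDegree_C_mul_le _ _).trans h2))
  · unfold cjP cjQ
    rw [coeff_add, coeff_C_mul, coeff_C_mul, coeff_add, coeff_C_mul, coeff_C_mul]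
    by_contra hcon
    push Not at hcon
    obtain ⟨e1, e2⟩ := hcon
    set f := (hev F d (C e * X - C b) (C a - C c * X) : K[X]).coeff d
    set g := (hev G d (C e * X - C b) (C a - C c * X) : K[X]).coeff d
    have e3 : (a * e - b * c) * f = 0 := by linear_combination e * e1 - b * e2
    have e4 : (a * e - b * c) * g = 0 := by linear_combination a * e2 - c * e1
    rcases ht with ht | ht
    · exact ht ((mul_eq_zero.mp e3).resolve_left h)
    · exact ht ((mul_eq_zero.mp e4).resolve_left h)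

lemma cj_eval (hF : F.natDegree ≤ d) (hG : G.natDegree ≤ d) {x : K} (hx : c * x + e ≠ 0) :
    (cjP F G d a b c e).eval ((a * x + b) / (c * x + e)) =
      ((a * e - b * c) / (c * x + e)) ^ d * (a * F.eval x + b * G.eval x) ∧
    (cjQ F G d a b c e).eval ((a * x + b) / (c * x + e)) =
      ((a * e - b * c) / (c * x + e)) ^ d * (c * F.eval x + e * G.eval x) := by
  have h1 : (C e * X - C b : K[X]).eval ((a * x + b) / (c * x + e)) =
      (a * e - b * c) / (c * x + e) * x := by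
    simp only [eval_sub, eval_mul, eval_C, eval_X]
    rw [mul_div_assoc', div_sub' hx, div_mul_eq_mul_div]
    congr 1
    ring
  have h2 : (C a - C c * X : K[X]).eval ((a * x + b) / (c * x + e)) =
      (a * e - b * c) / (c * x + e) * 1 := by
    simp only [eval_sub, eval_mul, eval_C, eval_X]
    rw [mul_div_assoc', sub_div' hx, mul_one]
    congr 1
    ring
  have h3 : ∀ H : K[X], H.natDegree ≤ d → (hev H d (C e * X - C b) (C a - C c * X) : K[X]).eval
      ((a * x + b) / (c * x + e)) = ((a * e - b * c) / (c * x + e)) ^ d * H.eval x := by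
    intro H hH
    rw [hev_eval, h1, h2, hev_smul_arg, hev_eq_eval H d hH x 1 one_ne_zero, div_one, one_pow, one_mul]
  unfold cjP cjQ
  simp only [eval_add, eval_mul, eval_C]
  rw [h3 F hF, h3 G hG]
  constructor <;> ring

lemma RatOrbit.conj (h : a * e - b * c ≠ 0) (hF : F.natDegree ≤ d) (hG : G.natDegree ≤ d)
    {x : ℕ → K} {N : ℕ} (hx : RatOrbit F G x N) (hne : ∀ j, c * x j + e ≠ 0) :
    RatOrbit (cjP F G d a b c e) (cjQ F G d a b c e) (fun j => (a * x j + b) / (c * x j + e)) N := by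
  have key : ∀ j, c * F.eval (x j) + e * G.eval (x j) = G.eval (x j) * (c * x (j + 1) + e) ∧
      a * F.eval (x j) + b * G.eval (x j) = G.eval (x j) * (a * x (j + 1) + b) := by
    intro j
    have h1 := hx.ne j
    rw [hx.step j]
    constructor <;> field_simp
  have hs : ∀ j, ((a * e - b * c) / (c * x j + e)) ^ d ≠ 0 := fun j =>
    pow_ne_zero _ (div_ne_zero h (hne j))
  refine ⟨?_, ?_, ?_, ?_⟩
  · intro j
    rw [(cj_eval hF hG (hne j)).2, (key j).1]
    exact mul_ne_zero (hs j) (mul_ne_zero (hx.ne j) (hne (j + 1)))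
  · intro j
    rw [(cj_eval hF hG (hne j)).1, (cj_eval hF hG (hne j)).2, (key j).1, (key j).2,
      mul_div_mul_left _ _ (hs j), mul_div_mul_left _ _ (hx.ne j)]
  · intro i j hi hj hij
    apply hx.inj i j hi hj
    have h1 := mobius_sub (a := a) (b := b) (hne i) (hne j)
    rw [hij, sub_self, eq_comm, div_eq_zero_iff] at h1
    rcases h1 with h1 | h1
    · exact sub_eq_zero.mp ((mul_eq_zero.mp h1).resolve_left h)
    · exact absurd h1 (mul_ne_zero (hne i) (hne j))
  · have : Set.range (fun j => (a * x j + b) / (c * x j + e)) =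
        (fun y => (a * y + b) / (c * y + e)) '' Set.range x := by
      rw [← Set.range_comp]; rfl
    rw [this]
    exact hx.fin.image _

end conj

/-! ## M1 -/

/-- a constant which differs from a residue -/
lemma exists_generic {k K V : Type*} [Field k] [Infinite k] [Field K] [Algebra k K] (P : PSys k K V)
    (hres : ∀ v, ResK k (P.pl v)) (S : Finset V) (Y : Finset K) :
    ∃ c₀ : k, c₀ ≠ 0 ∧ c₀ ≠ 1 ∧ (∀ y ∈ Y, y ≠ algebraMap k K c₀) ∧
      ∀ v ∈ S, ∀ y ∈ Y, (P.pl v).o (y - algebraMap k K c₀) ≤ 0 ∧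
        ((P.pl v).ge 0 y → (P.pl v).o (y - algebraMap k K c₀) = 0) := by
  classical
  have hex : ∀ v : V, ∀ y : K, ∃ c : k, (P.pl v).ge 0 y → (P.pl v).ge 1 (y - algebraMap k K c) := by
    intro v y
    by_cases h : (P.pl v).ge 0 y
    · obtain ⟨c, hc⟩ := (hres v).res y h
      exact ⟨c, fun _ => hc⟩
    · exact ⟨0, fun h' => absurd h' h⟩
  choose r hr using hex
  have hex2 : ∀ y : K, ∃ c : k, (∃ c' : k, y = algebraMap k K c') → y = algebraMap k K c := by
    intro y
    by_cases h : ∃ c' : k, y = algebraMap k K c'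
    · exact ⟨h.choose, fun _ => h.choose_spec⟩
    · exact ⟨0, fun h' => absurd h' h⟩
  choose r' hr' using hex2
  set B : Finset k := {0, 1} ∪ (Y.image r') ∪ ((S ×ˢ Y).image fun p => r p.1 p.2) with hB
  obtain ⟨c₀, hc₀⟩ := Infinite.exists_notMem_finset B
  rw [hB, mem_union, mem_union, not_or, not_or] at hc₀
  obtain ⟨⟨h1, h2⟩, h3⟩ := hc₀
  refine ⟨c₀, ?_, ?_, ?_, ?_⟩
  · rintro rfl; exact h1 (by simp)
  · rintro rfl; exact h1 (by simp)
  · intro y hy he
    apply h2
    rw [mem_image]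
    refine ⟨y, hy, ?_⟩
    have h4 := hr' y ⟨c₀, he⟩
    exact (algebraMap k K).injective (h4.symm.trans he)
  · intro v hv y hy
    have key : (P.pl v).ge 0 y → (P.pl v).o (y - algebraMap k K c₀) = 0 := by
      intro hge
      have hrv := hr v y hge
      have hne : r v y - c₀ ≠ 0 := by
        intro h
        apply h3
        rw [mem_image]
        exact ⟨(v, y), mem_product.mpr ⟨hv, hy⟩, sub_eq_zero.mp h⟩
      have h5 := (hres v).const _ hne
      have h6 : algebraMap k K (r v y - c₀) ≠ 0 := by rw [Ne, map_eq_zero]; exact hne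
      have h7 := DV.ord_add_of_ge h6 hrv (by rw [h5]; norm_num)
      have h8 : algebraMap k K (r v y - c₀) + (y - algebraMap k K (r v y)) = y - algebraMap k K c₀ := by
        rw [map_sub]; ring
      rw [h8] at h7
      rw [h7.2, h5]
    refine ⟨?_, key⟩
    by_cases hge : (P.pl v).ge 0 y
    · exact (key hge).le
    · have hy0 : y ≠ 0 := fun e => hge (Or.inl e)
      have hyo : (P.pl v).o y < 0 := by
        by_contra h
        push Not at h
        exact hge (Or.inr (by exact_mod_cast h))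
      have hg : (P.pl v).ge 0 (-algebraMap k K c₀) := by
        by_cases h0 : c₀ = 0
        · left; rw [h0, map_zero, _root_.neg_zero]
        · right
          rw [DV.o_neg, (hres v).const _ h0]
          norm_num
      have h7 := DV.ord_add_of_ge hy0 hg (by exact_mod_cast hyo)
      rw [sub_eq_add_neg, h7.2]
      exact hyo.le

/-- M1 COORDINATES -/
theorem exists_coord {k K V : Type*} [Field k] [Infinite k] [Field K] [Algebra k K] (P : PSys k K V)
    (hres : ∀ v, ResK k (P.pl v)) {d : ℕ} {F G : K[X]} (hFG : IsRat F G d) {x : ℕ → K} {N : ℕ}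
    (hx : RatOrbit F G x N) (𝒥 : Finset ℕ) {α β γ : ℕ} (hα : α ∈ 𝒥) (hβ : β ∈ 𝒥) (hγ : γ ∈ 𝒥)
    (hαβ : α ≠ β) (hαγ : α ≠ γ) (hβγ : β ≠ γ) (h𝒥 : ∀ j ∈ 𝒥, j ≤ N) (S : Finset V)
    (hS : ∀ v ∈ S, ∃ ζ : PV (P.pl v), ∀ i ∈ 𝒥, ∀ j ∈ 𝒥, i ≠ j → ζ.dir (x i) ≠ ζ.dir (x j)) :
    ∃ (F' G' : K[X]) (z : ℕ → K) (a b c e : K), a * e - b * c ≠ 0 ∧ (∀ j, c * x j + e ≠ 0) ∧
      (∀ j, z j = (a * x j + b) / (c * x j + e)) ∧
      IsRat F' G' d ∧ RatOrbit F' G' z N ∧
      (∃ c₁ : k, algebraMap k K c₁ = z α) ∧ (∃ c₂ : k, algebraMap k K c₂ = z β) ∧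
      (∃ c₃ : k, algebraMap k K c₃ = z γ) ∧
      (∀ v ∈ S, ∀ j, (P.pl v).ge 0 (z j)) ∧
      (∀ v ∈ S, ∀ i ∈ 𝒥, ∀ j ∈ 𝒥, i ≠ j → (P.pl v).o (z i - z j) = 0) ∧
      ∀ j, x j ≠ x β → ht P (z j) ≤ ht P (Helper33.PS.cr (x α) (x β) (x γ) (x j)) := by
  classical
  have hxx : ∀ i ∈ 𝒥, ∀ j ∈ 𝒥, i ≠ j → x i - x j ≠ 0 := fun i hi j hj hij =>
    sub_ne_zero.mpr fun e => hij (hx.inj i j (h𝒥 i hi) (h𝒥 j hj) e)
  set p := x γ - x α with hp
  set q := x γ - x β with hq
  have hp0 : p ≠ 0 := hxx γ hγ α hα hαγ.symm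
  have hq0 : q ≠ 0 := hxx γ hγ β hβ hβγ.symm
  have hba : x β - x α ≠ 0 := hxx β hβ α hα hαβ.symm
  set lam : K → K := fun y => Helper33.PS.cr (x α) (x β) (x γ) y with hlam
  obtain ⟨c₀, hc0, hc1, hcY, hcS⟩ := exists_generic P hres S
    ((hx.fin.toFinset).image lam)
  set κ := algebraMap k K c₀ with hκ
  have hκ0 : κ ≠ 0 := by rw [hκ, Ne, map_eq_zero]; exact hc0
  have hmem : ∀ j, lam (x j) ∈ (hx.fin.toFinset).image lam := by
    intro j
    apply mem_image_of_mem
    rw [Set.Finite.mem_toFinset]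
    exact ⟨j, rfl⟩
  -- the coordinate
  have hden : ∀ y : K, y - x β ≠ 0 → (q - κ * p) * y + (κ * p * x β - q * x α) =
      (y - x β) * p * (lam y - κ) := by
    intro y hy
    simp only [hlam]
    unfold Helper33.PS.cr
    rw [← hp, ← hq]
    field_simp
    ring
  have hdenβ : (q - κ * p) * x β + (κ * p * x β - q * x α) = q * (x β - x α) := by ring
  have hne : ∀ j, (q - κ * p) * x j + (κ * p * x β - q * x α) ≠ 0 := by
    intro j
    by_cases hj : x j - x β = 0
    · rw [sub_eq_zero.mp hj, hdenβ]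
      exact mul_ne_zero hq0 hba
    · rw [hden _ hj]
      exact mul_ne_zero (mul_ne_zero hj hp0) (sub_ne_zero.mpr (hcY _ (hmem j)))
  have hdet : p * (κ * p * x β - q * x α) - (-(p * x β)) * (q - κ * p) = p * q * (x β - x α) := by ring
  have hdet0 : p * (κ * p * x β - q * x α) - (-(p * x β)) * (q - κ * p) ≠ 0 := by
    rw [hdet]
    exact mul_ne_zero (mul_ne_zero hp0 hq0) hba
  have hz : ∀ j, x j - x β ≠ 0 → (p * x j + -(p * x β)) / ((q - κ * p) * x j + (κ * p * x β - q * x α)) =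
      1 / (lam (x j) - κ) := by
    intro j hj
    rw [hden _ hj]
    have h1 : p * x j + -(p * x β) = (x j - x β) * p * 1 := by ring
    rw [h1, mul_div_mul_left _ _ (mul_ne_zero hj hp0)]
  have hzβ : (p * x β + -(p * x β)) / ((q - κ * p) * x β + (κ * p * x β - q * x α)) = 0 := by
    rw [add_neg_cancel, zero_div]
  refine ⟨cjP F G d p (-(p * x β)) (q - κ * p) (κ * p * x β - q * x α),
    cjQ F G d p (-(p * x β)) (q - κ * p) (κ * p * x β - q * x α),
    fun j => (p * x j + -(p * x β)) / ((q - κ * p) * x j + (κ * p * x β - q * x α)),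
    p, -(p * x β), q - κ * p, κ * p * x β - q * x α, hdet0, hne, fun j => rfl, IsRat.conj hdet0 hFG,
    RatOrbit.conj hdet0 hFG.dA hFG.dB hx hne, ?_, ?_, ?_, ?_, ?_, ?_⟩
  · refine ⟨-c₀⁻¹, ?_⟩
    simp only
    rw [hz α (hxx α hα β hβ hαβ), map_neg, map_inv₀, ← hκ]
    have : lam (x α) = 0 := by
      simp only [hlam]
      unfold Helper33.PS.cr
      rw [sub_self, zero_mul, zero_div]
    rw [this, zero_sub, one_div, inv_neg]
  · exact ⟨0, by simp only; rw [map_zero, hzβ]⟩
  · refine ⟨(1 - c₀)⁻¹, ?_⟩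
    simp only
    rw [hz γ (hxx γ hγ β hβ hβγ.symm), map_inv₀, map_sub, map_one, ← hκ]
    have : lam (x γ) = 1 := by
      simp only [hlam]
      unfold Helper33.PS.cr
      rw [← hp, ← hq, mul_comm]
      exact div_self (mul_ne_zero hq0 hp0)
    rw [this, one_div]
  · intro v hv j
    simp only
    by_cases hj : x j - x β = 0
    · rw [sub_eq_zero.mp hj, hzβ]
      exact Or.inl rfl
    · rw [hz j hj]
      right
      have h1 := hcS v hv _ (hmem j)
      rw [one_div, DV.o_inv _ _ (sub_ne_zero.mpr (hcY _ (hmem j)))]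
      have h2 := h1.1
      have : 0 ≤ -(P.pl v).o (lam (x j) - κ) := by omega
      exact_mod_cast this
  · intro v hv
    obtain ⟨ζ, hζ⟩ := hS v hv
    obtain ⟨a₀, r, rfl⟩ := ζ.exists_rep
    have ho : ∀ i ∈ 𝒥, ∀ j ∈ 𝒥, i ≠ j → (P.pl v).o (x i - x j) =
        nn (P.pl v) a₀ r (x i) + nn (P.pl v) a₀ r (x j) - r := by
      intro i hi j hj hij
      have := o_of_dir_ne' (hζ i hi j hj hij)
      omega
    have hm : ∀ i ∈ 𝒥, (P.pl v).o ((q - κ * p) * x i + (κ * p * x β - q * x α)) =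
        nn (P.pl v) a₀ r (x i) + nn (P.pl v) a₀ r (x α) + nn (P.pl v) a₀ r (x β) +
          nn (P.pl v) a₀ r (x γ) - 2 * r := by
      intro i hi
      have hpo := ho γ hγ α hα hαγ.symm
      have hqo := ho γ hγ β hβ hβγ.symm
      have hbo := ho β hβ α hα hαβ.symm
      by_cases hiβ : i = β
      · rw [hiβ, hdenβ, (P.pl v).mul _ _ hq0 hba, hbo]
        rw [hq, hqo]
        ring
      · have h1 := hxx i hi β hβ hiβ
        have h2 := ho i hi β hβ hiβ
        have h3 : (P.pl v).o (lam (x i) - κ) = 0 := by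
          apply (hcS v hv _ (hmem i)).2
          by_cases hiα : i = α
          · left
            simp only [hlam]
            unfold Helper33.PS.cr
            rw [hiα, sub_self, zero_mul, zero_div]
          · right
            have h4 := hxx i hi α hα hiα
            have h5 := ho i hi α hα hiα
            simp only [hlam]
            unfold Helper33.PS.cr
            rw [DV.o_div _ _ _ (mul_ne_zero h4 hq0) (mul_ne_zero h1 hp0), (P.pl v).mul _ _ h4 hq0,
              (P.pl v).mul _ _ h1 hp0, h5, h2, hpo, hqo]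
            have : nn (P.pl v) a₀ r (x i) + nn (P.pl v) a₀ r (x α) - r +
                (nn (P.pl v) a₀ r (x γ) + nn (P.pl v) a₀ r (x β) - r) -
                (nn (P.pl v) a₀ r (x i) + nn (P.pl v) a₀ r (x β) - r +
                (nn (P.pl v) a₀ r (x γ) + nn (P.pl v) a₀ r (x α) - r)) = 0 := by ring
            rw [this]
            norm_num
        rw [hden _ h1, (P.pl v).mul _ _ (mul_ne_zero h1 hp0) (sub_ne_zero.mpr (hcY _ (hmem i))),
          (P.pl v).mul _ _ h1 hp0, h3, h2, hp, hpo]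
        ring
    intro i hi j hj hij
    simp only
    have h1 := hxx i hi j hj hij
    have h2 := ho i hi j hj hij
    rw [mobius_sub (hne i) (hne j), DV.o_div _ _ _ (mul_ne_zero hdet0 h1)
      (mul_ne_zero (hne i) (hne j)), (P.pl v).mul _ _ hdet0 h1, (P.pl v).mul _ _ (hne i) (hne j),
      hm i hi, hm j hj, h2, hdet, (P.pl v).mul _ _ (mul_ne_zero hp0 hq0) hba,
      (P.pl v).mul _ _ hp0 hq0, hp, hq, ho γ hγ α hα hαγ.symm, ho γ hγ β hβ hβγ.symm,
      ho β hβ α hα hαβ.symm]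
    ring
  · intro j hj
    simp only
    rw [hz j (sub_ne_zero.mpr hj), ht_mobius_const P (fun v => (hres v).const) _ _ (hcY _ (hmem j))]

/-- the statement of the specification, verbatim -/
example {k K V : Type} [Field k] [Infinite k] [Field K] [Algebra k K] (P : PSys k K V)
    (hres : ∀ v, ResK k (P.pl v)) {d : ℕ} (hd : 1 ≤ d) {F G : K[X]} (hFG : IsRat F G d) {x : ℕ → K} {N : ℕ}
    (hx : RatOrbit F G x N) (𝒥 : Finset ℕ) {α β γ : ℕ} (hα : α ∈ 𝒥) (hβ : β ∈ 𝒥) (hγ : γ ∈ 𝒥)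
    (hαβ : α ≠ β) (hαγ : α ≠ γ) (hβγ : β ≠ γ) (h𝒥 : ∀ j ∈ 𝒥, j ≤ N) (S : Finset V)
    (hS : ∀ v ∈ S, ∃ ζ : PV (P.pl v), ∀ i ∈ 𝒥, ∀ j ∈ 𝒥, i ≠ j → ζ.dir (x i) ≠ ζ.dir (x j)) :
    ∃ (F' G' : K[X]) (z : ℕ → K) (a b c e : K), a * e - b * c ≠ 0 ∧ (∀ j, c * x j + e ≠ 0) ∧
      (∀ j, z j = (a * x j + b) / (c * x j + e)) ∧
      IsRat F' G' d ∧ RatOrbit F' G' z N ∧
      (∃ c₁ : k, algebraMap k K c₁ = z α) ∧ (∃ c₂ : k, algebraMap k K c₂ = z β) ∧
      (∃ c₃ : k, algebraMap k K c₃ = z γ) ∧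
      (∀ v ∈ S, ∀ j, (P.pl v).ge 0 (z j)) ∧
      (∀ v ∈ S, ∀ i ∈ 𝒥, ∀ j ∈ 𝒥, i ≠ j → (P.pl v).o (z i - z j) = 0) ∧
      ∀ j, x j ≠ x β → ht P (z j) ≤ ht P (Helper33.PS.cr (x α) (x β) (x γ) (x j)) :=
  exists_coord P hres hFG hx 𝒥 hα hβ hγ hαβ hαγ hβγ h𝒥 S hS

end Pool.Agent.Helper35.PS
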